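import Pool.Agent.H28.MG.Fin

/-!
# The ordinary averages at a random scale (MP_c59857_nt): partial summation

The mean over the scales `N` in `[Y, Z]` with weights `1 / N` of the ordinary averages up to `N` of
a bounded sequence is its logarithmic mean over `[Y, Z]`.
-/

set_option autoImplicit false

open MeasureTheory ProbabilityTheory Filter Topology Finset

namespace Pool.Agent.H36.KW

open Pool.Agent.H89.MT (I1 X pt z1 IsMult)

theorem abs_sum_le (a : ℕ → ℝ) (C : ℝ) (ha : ∀ n, |a n| ≤ C) (N : ℕ) :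
    |∑ n ∈ Icc 1 N, a n| ≤ C * N := by
  refine (abs_sum_le_sum_abs _ _).trans ((sum_le_sum fun n _ => ha n).trans ?_)
  rw [sum_const, Nat.card_Icc, Nat.add_sub_cancel, nsmul_eq_mul, mul_comm]

/-- partial summation -/
theorem part_aux (a : ℕ → ℝ) (C : ℝ) (ha : ∀ n, |a n| ≤ C) (Y : ℕ) (hY : 1 ≤ Y) (Z : ℕ)
    (hZ : Y ≤ Z) :
    |(∑ n ∈ Icc Y Z, a n / n - ∑ N ∈ Icc Y Z, ((∑ n ∈ Icc 1 N, a n) / N) / N -
      (∑ n ∈ Icc 1 Z, a n) / Z) - (a Y / Y - ((∑ n ∈ Icc 1 Y, a n) / Y) / Y -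
        (∑ n ∈ Icc 1 Y, a n) / Y)| ≤ 2 * C * (1 / (Y : ℝ) - 1 / (Z : ℝ)) := by
  induction Z, hZ using Nat.le_induction with
  | base => simp
  | succ Z hZ ih =>
    have hZ0 : (0 : ℝ) < (Z : ℝ) := by exact_mod_cast (by omega : 0 < Z)
    have hC : 0 ≤ C := (abs_nonneg _).trans (ha 0)
    rw [sum_Icc_succ_top (by omega : Y ≤ Z + 1), sum_Icc_succ_top (by omega : Y ≤ Z + 1)]
    have eA : ∑ n ∈ Icc 1 (Z + 1), a n = ∑ n ∈ Icc 1 Z, a n + a (Z + 1) :=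
      sum_Icc_succ_top (by omega : 1 ≤ Z + 1) _
    rw [eA]
    push_cast
    have hA := abs_sum_le a C ha Z
    have ha1 := ha (Z + 1)
    obtain ⟨A, hA'⟩ : ∃ A, A = ∑ n ∈ Icc 1 Z, a n := ⟨_, rfl⟩
    obtain ⟨b, hb⟩ : ∃ b, b = a (Z + 1) := ⟨_, rfl⟩
    obtain ⟨s, hs⟩ : ∃ s, s = ∑ n ∈ Icc Y Z, a n / n := ⟨_, rfl⟩
    obtain ⟨t, ht⟩ : ∃ t, t = ∑ N ∈ Icc Y Z, ((∑ n ∈ Icc 1 N, a n) / N) / N := ⟨_, rfl⟩
    obtain ⟨r, hr⟩ : ∃ r, r = a Y / Y - ((∑ n ∈ Icc 1 Y, a n) / Y) / Y -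
        (∑ n ∈ Icc 1 Y, a n) / Y := ⟨_, rfl⟩
    obtain ⟨z, hz⟩ : ∃ z : ℝ, z = (Z : ℝ) := ⟨_, rfl⟩
    rw [← hA', ← hs, ← ht, ← hr, ← hz] at ih
    rw [← hA', ← hs, ← ht, ← hr, ← hb, ← hz]
    rw [← hA', ← hz] at hA
    rw [← hb] at ha1
    rw [← hz] at hZ0
    have e1 : s + b / (z + 1) - (t + ((A + b) / (z + 1)) / (z + 1)) - (A + b) / (z + 1) - r =
        (s - t - A / z - r) + (A - b * z) / (z * (z + 1) ^ 2) := by
      field_simp
      ring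
    rw [e1]
    have h1 : |(A - b * z) / (z * (z + 1) ^ 2)| ≤ 2 * C * (1 / z - 1 / (z + 1)) := by
      rw [abs_div, abs_of_pos (by positivity : (0 : ℝ) < z * (z + 1) ^ 2)]
      have h2 : |A - b * z| ≤ 2 * C * z := by
        refine (abs_sub _ _).trans ?_
        rw [abs_mul, abs_of_pos hZ0]
        have := mul_le_mul_of_nonneg_right ha1 hZ0.le
        linarith
      have h3 : 2 * C * (1 / z - 1 / (z + 1)) = (2 * C * z) * (z + 1) / (z * (z + 1) ^ 2 * z) := by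
        field_simp
        ring
      rw [h3, div_le_div_iff₀ (by positivity) (by positivity)]
      have h4 : 0 < z * (z + 1) ^ 2 := by positivity
      have h5 : |A - b * z| * z ≤ (2 * C * z) * (z + 1) := by
        have h6 := mul_le_mul_of_nonneg_right h2 hZ0.le
        have h7 : 0 ≤ 2 * C * z := by positivity
        nlinarith
      nlinarith [mul_le_mul_of_nonneg_left h5 h4.le]
    refine (abs_add_le _ _).trans ((add_le_add ih h1).trans (le_of_eq ?_))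
    ring

/-- partial summation -/
theorem part (a : ℕ → ℝ) (C : ℝ) (ha : ∀ n, |a n| ≤ C) (Y : ℕ) (hY : 1 ≤ Y) (Z : ℕ)
    (hZ : Y ≤ Z) :
    |∑ N ∈ Icc Y Z, ((∑ n ∈ Icc 1 N, a n) / N) / N - ∑ n ∈ Icc Y Z, a n / n| ≤ 6 * C := by
  have h := part_aux a C ha Y hY Z hZ
  have hC : 0 ≤ C := (abs_nonneg _).trans (ha 0)
  have hY1 : (1 : ℝ) ≤ (Y : ℝ) := by exact_mod_cast hY
  have hZ1 : (1 : ℝ) ≤ (Z : ℝ) := by exact_mod_cast hY.trans hZ
  have hg : ∀ N : ℕ, (1 : ℝ) ≤ (N : ℝ) → |(∑ n ∈ Icc 1 N, a n) / N| ≤ C := by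
    intro N hN
    rw [abs_div, abs_of_pos (by linarith : (0 : ℝ) < (N : ℝ)), div_le_iff₀ (by linarith)]
    exact abs_sum_le a C ha N
  have h1 := hg Z hZ1
  have h2 := hg Y hY1
  have hd : ∀ t : ℝ, |t| ≤ C → |t / (Y : ℝ)| ≤ C := by
    intro t ht
    rw [abs_div, abs_of_pos (by linarith : (0 : ℝ) < (Y : ℝ)), div_le_iff₀ (by linarith)]
    nlinarith
  have h3 := hd _ h2
  have h4 := hd _ (ha Y)
  have h5 : 2 * C * (1 / (Y : ℝ) - 1 / (Z : ℝ)) ≤ 2 * C := by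
    have h6 : 1 / (Y : ℝ) ≤ 1 := by
      rw [div_le_one (by linarith)]
      exact hY1
    have h7 : 0 ≤ 1 / (Z : ℝ) := by positivity
    nlinarith
  rw [abs_le] at *
  constructor <;> linarith [h.1, h.2, h1.1, h1.2, h2.1, h2.2, h3.1, h3.2, h4.1, h4.2]

/-- the integral against the mean -/
theorem int_bind {Ω : Type*} [MeasurableSpace Ω] (P : Measure Ω) [IsProbabilityMeasure P]
    (K : Ω → Measure X) [hK : ∀ w, IsProbabilityMeasure (K w)] (hKm : Measurable K)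
    (F : X → ℝ) (hF : Measurable F) {C : ℝ} (hb : ∀ x, |F x| ≤ C) :
    ∫ x, F x ∂P.bind K = ∫ w, ∫ x, F x ∂K w ∂P := by
  obtain ⟨k, hk⟩ : ∃ k : Kernel Ω X, ∀ w, k w = K w := ⟨⟨K, hKm⟩, fun w => rfl⟩
  have hk' : K = fun w => k w := funext fun w => (hk w).symm
  have : IsMarkovKernel k := ⟨fun w => by rw [hk]; exact hK w⟩
  have : IsProbabilityMeasure (P.bind k) := by infer_instance
  subst hk'
  have hi : Integrable F (P.bind k) :=
    Integrable.of_bound hF.aestronglyMeasurable C (Eventually.of_forall fun x => hb x)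
  rw [Measure.comp_eq_comp_const_apply] at hi ⊢
  rw [Kernel.integral_comp hi, Kernel.const_apply]

/-- the mean of a bounded sequence of scales -/
theorem tend_of {Y Z : ℕ → ℕ} (hYZ : ∀ k, 1 ≤ Y k ∧ Y k ≤ Z k)
    (hL : Tendsto (fun k => Real.log ((Z k : ℝ) / Y k)) atTop atTop) (a : ℕ → ℝ) (C : ℝ)
    (ha : ∀ n, |a n| ≤ C) (l : ℝ)
    (h : Tendsto (fun k => (∑ N ∈ Icc (Y k) (Z k), ((∑ n ∈ Icc 1 N, a n) / N) / N) /
      Real.log ((Z k : ℝ) / Y k)) atTop (𝓝 l)) :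
    Tendsto (fun k => (∑ n ∈ Icc (Y k) (Z k), a n / n) / Real.log ((Z k : ℝ) / Y k))
      atTop (𝓝 l) := by
  have h1 : Tendsto (fun k => (∑ n ∈ Icc (Y k) (Z k), a n / n) / Real.log ((Z k : ℝ) / Y k) -
      (∑ N ∈ Icc (Y k) (Z k), ((∑ n ∈ Icc 1 N, a n) / N) / N) /
        Real.log ((Z k : ℝ) / Y k)) atTop (𝓝 0) := by
    have h2 : Tendsto (fun k => 6 * C / Real.log ((Z k : ℝ) / Y k)) atTop (𝓝 0) :=
      hL.const_div_atTop _
    refine squeeze_zero_norm' ?_ h2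
    filter_upwards [hL.eventually_gt_atTop 0] with k hk
    rw [← sub_div, norm_div, Real.norm_eq_abs, Real.norm_eq_abs, abs_of_pos hk, abs_sub_comm]
    exact div_le_div_of_nonneg_right (part a C ha (Y k) (hYZ k).1 (Z k) (hYZ k).2) hk.le
  have h3 := h1.add h
  rw [zero_add] at h3
  exact h3.congr fun k => sub_add_cancel _ _

/-- the mean of the random measure is a logarithmic limit along the same windows -/
theorem qgw_of {u : ℕ → I1} {Ω : Type*} [MeasurableSpace Ω] (P : Measure Ω)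
    [IsProbabilityMeasure P] (K : Ω → Measure X) [hK : ∀ w, IsProbabilityMeasure (K w)]
    (hKm : Measurable K) (Y Z : ℕ → ℕ) (hYZ : ∀ k, 1 ≤ Y k ∧ Y k ≤ Z k ∧
      Real.log (Z k) ^ (24 / 25 : ℝ) ≤ Real.log ((Z k : ℝ) / Y k))
    (hL : Tendsto (fun k => Real.log ((Z k : ℝ) / Y k)) atTop atTop)
    (hF : ∀ F : C(X, ℝ), Tendsto (fun k => (∑ N ∈ Icc (Y k) (Z k),
      ((∑ n ∈ Icc 1 N, F (pt u n)) / N) / N) / Real.log ((Z k : ℝ) / Y k)) atTop
        (𝓝 (∫ w, ∫ x, F x ∂K w ∂P))) : Pool.Agent.H24.WT.QGW u (P.bind K) := by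
  refine ⟨isProbabilityMeasure_bind hKm.aemeasurable (Eventually.of_forall hK), Y, Z, hYZ, hL,
    fun F => ?_⟩
  have hb : ∀ x, |F x| ≤ ‖F‖ := fun x => by
    rw [← Real.norm_eq_abs]
    exact F.norm_coe_le_norm x
  rw [int_bind P K hKm F F.continuous.measurable hb]
  exact tend_of (fun k => ⟨(hYZ k).1, (hYZ k).2.1⟩) hL (fun n => F (pt u n)) ‖F‖
    (fun n => hb _) _ (hF F)

end Pool.Agent.H36.KW
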