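import Pool.Agent.H36.KW.C1

/-!
# The ordinary averages at a random scale (MP_c59857_nt): invariance
-/

set_option autoImplicit false

open MeasureTheory ProbabilityTheory Filter Topology Finset

namespace Pool.Agent.H36.KW

open Pool.Agent.H89.MT (I1 X pt z1 IsMult)
open Pool.Agent.H36.RP (S)

/-- the telescoping averages -/
theorem avg_tel (a : ℕ → ℝ) (C : ℝ) (ha : ∀ n, |a n| ≤ C) (N : ℕ) (hN : 1 ≤ N) :
    ((∑ n ∈ Icc 1 N, (a (n + 1) - a n)) / N) ^ 2 ≤ 4 * C ^ 2 / (N : ℝ) ^ 2 := by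
  have h1 : ∀ N : ℕ, ∑ n ∈ Icc 1 N, (a (n + 1) - a n) = a (N + 1) - a 1 := by
    intro N
    induction N with
    | zero => simp
    | succ N ih =>
      rw [sum_Icc_succ_top (by omega : 1 ≤ N + 1), ih]
      ring
  rw [h1, div_pow]
  refine div_le_div_of_nonneg_right ?_ (by positivity)
  have h2 := ha (N + 1)
  have h3 := ha 1
  have h4 : |a (N + 1) - a 1| ≤ 2 * C := (abs_sub _ _).trans (by linarith)
  rw [← sq_abs]
  have h5 := pow_le_pow_left₀ (abs_nonneg _) h4 2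
  linarith [h5, (by ring : (2 * C) ^ 2 = 4 * C ^ 2)]

/-- the sum over the scales -/
theorem sum_tel (a : ℕ → ℝ) (C : ℝ) (ha : ∀ n, |a n| ≤ C) (Y : ℕ) (hY : 1 ≤ Y) (Z : ℕ)
    (hZ : Y ≤ Z) :
    ∑ N ∈ Icc Y Z, ((∑ n ∈ Icc 1 N, (a (n + 1) - a n)) / N) ^ 2 / N ≤
      8 * C ^ 2 - 4 * C ^ 2 / (Z : ℝ) := by
  induction Z, hZ using Nat.le_induction with
  | base =>
    rw [Icc_self, sum_singleton]
    have h1 := avg_tel a C ha Y hY
    have hY1 : (1 : ℝ) ≤ (Y : ℝ) := by exact_mod_cast hY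
    have h2 : ((∑ n ∈ Icc 1 Y, (a (n + 1) - a n)) / Y) ^ 2 / (Y : ℝ) ≤ 4 * C ^ 2 := by
      rw [div_le_iff₀ (by linarith)]
      refine h1.trans ?_
      rw [div_le_iff₀ (by positivity)]
      have h3 : 0 ≤ C ^ 2 := sq_nonneg C
      have h4 : (1 : ℝ) ≤ (Y : ℝ) ^ 3 := one_le_pow₀ hY1
      nlinarith
    have h3 : 4 * C ^ 2 / (Y : ℝ) ≤ 4 * C ^ 2 := by
      rw [div_le_iff₀ (by linarith)]
      nlinarith [sq_nonneg C]
    linarith
  | succ Z hZ ih =>
    rw [sum_Icc_succ_top (by omega : Y ≤ Z + 1)]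
    have h1 := avg_tel a C ha (Z + 1) (by omega)
    have hZ1 : (1 : ℝ) ≤ (Z : ℝ) := by exact_mod_cast hY.trans hZ
    have h2 : ((∑ n ∈ Icc 1 (Z + 1), (a (n + 1) - a n)) / ((Z + 1 : ℕ) : ℝ)) ^ 2 /
        ((Z + 1 : ℕ) : ℝ) ≤ 4 * C ^ 2 / (Z : ℝ) - 4 * C ^ 2 / ((Z + 1 : ℕ) : ℝ) := by
      rw [div_le_iff₀ (by positivity)]
      refine h1.trans ?_
      push_cast
      have h3 : 0 ≤ C ^ 2 := sq_nonneg C
      rw [div_le_iff₀ (by positivity)]
      have e : (4 * C ^ 2 / (Z : ℝ) - 4 * C ^ 2 / ((Z : ℝ) + 1)) * ((Z : ℝ) + 1) *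
          ((Z : ℝ) + 1) ^ 2 = 4 * C ^ 2 * (((Z : ℝ) + 1) ^ 2 / Z) := by
        field_simp
        ring
      rw [e]
      have h4 : (1 : ℝ) ≤ ((Z : ℝ) + 1) ^ 2 / Z := by
        rw [le_div_iff₀ (by linarith)]
        nlinarith
      nlinarith
    linarith

theorem meas_int {Ω : Type*} [MeasurableSpace Ω] (K : Ω → Measure X)
    [hK : ∀ w, IsProbabilityMeasure (K w)] (hKm : Measurable K) (F : X → ℝ) (hF : Measurable F) :
    Measurable fun w => ∫ x, F x ∂K w := by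
  obtain ⟨k, hk⟩ : ∃ k : Kernel Ω X, ∀ w, k w = K w := ⟨⟨K, hKm⟩, fun w => rfl⟩
  have hk' : K = fun w => k w := funext fun w => (hk w).symm
  have : IsMarkovKernel k := ⟨fun w => by rw [hk]; exact hK w⟩
  subst hk'
  exact (hF.stronglyMeasurable.integral_kernel (κ := k)).measurable

/-- the square of the mean of a coboundary vanishes -/
theorem cob_zero {u : ℕ → I1} {Ω : Type*} [MeasurableSpace Ω] (P : Measure Ω)
    [IsProbabilityMeasure P] (K : Ω → Measure X) [hK : ∀ w, IsProbabilityMeasure (K w)]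
    (hKm : Measurable K) (Y Z : ℕ → ℕ) (hYZ : ∀ k, 1 ≤ Y k ∧ Y k ≤ Z k)
    (hL : Tendsto (fun k => Real.log ((Z k : ℝ) / Y k)) atTop atTop)
    (hF : ∀ F : C(X, ℝ), Tendsto (fun k => (∑ N ∈ Icc (Y k) (Z k),
      ((∑ n ∈ Icc 1 N, F (pt u n)) / N) ^ 2 / N) / Real.log ((Z k : ℝ) / Y k)) atTop
        (𝓝 (∫ w, (∫ x, F x ∂K w) ^ 2 ∂P))) (F : C(X, ℝ)) :
    ∀ᵐ w ∂P, ∫ x, F (S x) ∂K w = ∫ x, F x ∂K w := by
  have hSc : Continuous S := Pool.Agent.H83.W.S_cont
  obtain ⟨G, hG⟩ : ∃ G : C(X, ℝ), ∀ x, G x = F (S x) - F x :=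
    ⟨⟨fun x => F (S x) - F x, (F.continuous.comp hSc).sub F.continuous⟩, fun x => rfl⟩
  have hb : ∀ (H : C(X, ℝ)) (x : X), |H x| ≤ ‖H‖ := fun H x => by
    rw [← Real.norm_eq_abs]
    exact H.norm_coe_le_norm x
  have h1 := hF G
  have h2 : Tendsto (fun k => (∑ N ∈ Icc (Y k) (Z k),
      ((∑ n ∈ Icc 1 N, G (pt u n)) / N) ^ 2 / N) / Real.log ((Z k : ℝ) / Y k)) atTop (𝓝 0) := by
    have h3 : Tendsto (fun k => 8 * ‖F‖ ^ 2 / Real.log ((Z k : ℝ) / Y k)) atTop (𝓝 0) :=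
      hL.const_div_atTop _
    refine squeeze_zero' ?_ ?_ h3
    · filter_upwards [hL.eventually_gt_atTop 0] with k hk
      exact div_nonneg (sum_nonneg fun N _ => by positivity) hk.le
    · filter_upwards [hL.eventually_gt_atTop 0] with k hk
      refine div_le_div_of_nonneg_right ?_ hk.le
      have h4 := sum_tel (fun n => F (pt u n)) ‖F‖ (fun n => hb F _) (Y k) (hYZ k).1 (Z k)
        (hYZ k).2
      have h5 : 0 ≤ 4 * ‖F‖ ^ 2 / (Z k : ℝ) := by positivity
      have e : ∀ n : ℕ, G (pt u n) = F (pt u (n + 1)) - F (pt u n) := by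
        intro n
        rw [hG]
        have h6 : S (pt u n) = pt u (n + 1) := (Pool.Agent.H83.W.pt_succ u n).symm
        rw [h6]
      simp only [e]
      linarith
  have h3 := tendsto_nhds_unique h1 h2
  have hGm : Measurable fun w => ∫ x, G x ∂K w := meas_int K hKm G G.continuous.measurable
  have hGb : ∀ w, |∫ x, G x ∂K w| ≤ ‖G‖ := by
    intro w
    have h4 := norm_integral_le_of_norm_le_const (μ := K w) (f := fun x => G x) (C := ‖G‖)
      (Eventually.of_forall fun x => G.norm_coe_le_norm x)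
    rw [Real.norm_eq_abs] at h4
    simpa using h4
  have hi : Integrable (fun w => (∫ x, G x ∂K w) ^ 2) P := by
    refine Integrable.of_bound (hGm.pow_const 2).aestronglyMeasurable (‖G‖ ^ 2)
      (Eventually.of_forall fun w => ?_)
    rw [Real.norm_eq_abs, abs_pow]
    exact pow_le_pow_left₀ (abs_nonneg _) (hGb w) 2
  have h4 := (integral_eq_zero_iff_of_nonneg (fun w => sq_nonneg _) hi).1 h3
  filter_upwards [h4] with w hw
  have h5 : ∫ x, G x ∂K w = 0 := by
    have h6 : (∫ x, G x ∂K w) ^ 2 = 0 := hw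
    exact pow_eq_zero_iff (two_ne_zero) |>.1 h6
  simp only [hG] at h5
  rw [integral_sub] at h5
  · linarith
  · exact Integrable.of_bound (F.continuous.comp hSc).measurable.aestronglyMeasurable ‖F‖
      (Eventually.of_forall fun x => hb F _)
  · exact Integrable.of_bound F.continuous.measurable.aestronglyMeasurable ‖F‖
      (Eventually.of_forall fun x => hb F _)

/-- **Invariance of almost every `K w`** -/
theorem inv_of {u : ℕ → I1} {Ω : Type*} [MeasurableSpace Ω] (P : Measure Ω)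
    [IsProbabilityMeasure P] (K : Ω → Measure X) [hK : ∀ w, IsProbabilityMeasure (K w)]
    (hKm : Measurable K) (Y Z : ℕ → ℕ) (hYZ : ∀ k, 1 ≤ Y k ∧ Y k ≤ Z k)
    (hL : Tendsto (fun k => Real.log ((Z k : ℝ) / Y k)) atTop atTop)
    (hF : ∀ F : C(X, ℝ), Tendsto (fun k => (∑ N ∈ Icc (Y k) (Z k),
      ((∑ n ∈ Icc 1 N, F (pt u n)) / N) ^ 2 / N) / Real.log ((Z k : ℝ) / Y k)) atTop
        (𝓝 (∫ w, (∫ x, F x ∂K w) ^ 2 ∂P))) :
    ∀ᵐ w ∂P, MeasurePreserving S (K w) (K w) := by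
  have hSc : Continuous S := Pool.Agent.H83.W.S_cont
  have h1 : ∀ᵐ w ∂P, ∀ i : ℕ, ∫ x, (TopologicalSpace.denseSeq C(X, ℝ) i) (S x) ∂K w =
      ∫ x, (TopologicalSpace.denseSeq C(X, ℝ) i) x ∂K w := by
    rw [ae_all_iff]
    exact fun i => cob_zero P K hKm Y Z hYZ hL hF _
  filter_upwards [h1] with w hw
  have hcS : ∀ F : C(X, ℝ), Integrable (fun x => F (S x)) (K w) := fun F =>
    Integrable.of_bound (F.continuous.comp hSc).measurable.aestronglyMeasurable ‖F‖
      (Eventually.of_forall fun x => F.norm_coe_le_norm _)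
  have hc : ∀ F : C(X, ℝ), Integrable (fun x => F x) (K w) := fun F =>
    Integrable.of_bound F.continuous.measurable.aestronglyMeasurable ‖F‖
      (Eventually.of_forall fun x => F.norm_coe_le_norm _)
  have key : ∀ F : C(X, ℝ), ∫ x, F (S x) ∂K w = ∫ x, F x ∂K w := by
    intro F
    have h2 : ∀ ε : ℝ, 0 < ε → |∫ x, F (S x) ∂K w - ∫ x, F x ∂K w| ≤ 0 + 2 * ε := by
      intro ε hε
      obtain ⟨i, hi⟩ := (TopologicalSpace.denseRange_denseSeq C(X, ℝ)).exists_dist_lt F hε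
      obtain ⟨G, hG⟩ : ∃ G, G = TopologicalSpace.denseSeq C(X, ℝ) i := ⟨_, rfl⟩
      have h3 := hw i
      rw [← hG] at hi h3
      have h4 : ∀ x, |F x - G x| ≤ ε := fun x => by
        rw [← Real.dist_eq]
        exact (ContinuousMap.dist_apply_le_dist x).trans hi.le
      have h5 : |∫ x, F (S x) ∂K w - ∫ x, G (S x) ∂K w| ≤ ε := by
        rw [← integral_sub (hcS F) (hcS G)]
        have h6 := norm_integral_le_of_norm_le_const (μ := K w)
          (f := fun x => F (S x) - G (S x)) (C := ε) (Eventually.of_forall fun x => h4 _)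
        rw [Real.norm_eq_abs] at h6
        simpa using h6
      have h6 : |∫ x, F x ∂K w - ∫ x, G x ∂K w| ≤ ε := by
        rw [← integral_sub (hc F) (hc G)]
        have h6 := norm_integral_le_of_norm_le_const (μ := K w)
          (f := fun x => F x - G x) (C := ε) (Eventually.of_forall fun x => h4 _)
        rw [Real.norm_eq_abs] at h6
        simpa using h6
      rw [abs_le] at *
      constructor <;> linarith [h5.1, h5.2, h6.1, h6.2]
    have h3 : |∫ x, F (S x) ∂K w - ∫ x, F x ∂K w| ≤ 0 := by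
      refine le_of_forall_pos_le_add fun ε hε => ?_
      have := h2 (ε / 2) (by linarith)
      linarith
    have h4 := abs_nonpos_iff.1 h3
    linarith
  have hSm : Measurable S := hSc.measurable
  refine ⟨hSm, ?_⟩
  have : IsProbabilityMeasure ((K w).map S) := Measure.isProbabilityMeasure_map hSm.aemeasurable
  apply ext_of_forall_integral_eq_of_IsFiniteMeasure
  intro F
  rw [integral_map hSm.aemeasurable F.continuous.aestronglyMeasurable]
  exact key ⟨fun x => F x, F.continuous⟩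

end Pool.Agent.H36.KW
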