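import Pool.Agent.H36.KW.Fin2

/-!
# The ordinary averages at a random scale (MP_c59857_nt): existence of the random measure
-/

set_option autoImplicit false

open MeasureTheory ProbabilityTheory Filter Topology Finset
open scoped NNReal ENNReal

namespace Pool.Agent.H36.KW

open Pool.Agent.H89.MT (I1 X pt z1 IsMult)

/-- the probability measures on `X`, with the weak topology and its Borel sets -/
def PX : Type := ProbabilityMeasure X

noncomputable instance : TopologicalSpace PX :=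
  inferInstanceAs (TopologicalSpace (ProbabilityMeasure X))

noncomputable instance : MeasurableSpace PX := borel PX

instance : BorelSpace PX := ⟨rfl⟩

instance : CompactSpace PX := inferInstanceAs (CompactSpace (ProbabilityMeasure X))

instance : TopologicalSpace.MetrizableSpace PX :=
  inferInstanceAs (TopologicalSpace.MetrizableSpace (ProbabilityMeasure X))

instance : TopologicalSpace.SeparableSpace PX := by
  let := TopologicalSpace.metrizableSpaceMetric PX
  infer_instance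

/-- the measure -/
def toM (ν : PX) : Measure X := ProbabilityMeasure.toMeasure ν

instance (ν : PX) : IsProbabilityMeasure (toM ν) :=
  inferInstanceAs (IsProbabilityMeasure (ProbabilityMeasure.toMeasure ν))

theorem cont_int (F : C(X, ℝ)) : Continuous fun ν : PX => ∫ x, F x ∂toM ν :=
  ProbabilityMeasure.continuous_integral_continuousMap F

theorem meas_toM : Measurable toM := by
  refine Measurable.measure_of_isPiSystem_of_isProbabilityMeasure
    (S := {s : Set X | IsClosed s}) ?_ isPiSystem_isClosed ?_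
  · rw [← borel_eq_generateFrom_isClosed]
    exact BorelSpace.measurable_eq
  · intro s hs
    have h1 : ∀ n : ℕ, Measurable fun ν : PX => ∫⁻ x, (IsClosed.apprSeq hs n x : ℝ≥0∞) ∂toM ν := by
      intro n
      have h2 : Continuous fun ν : PX => ∫⁻ x, (IsClosed.apprSeq hs n x : ℝ≥0∞) ∂toM ν :=
        ProbabilityMeasure.continuous_lintegral_boundedContinuousFunction _
      exact h2.measurable
    refine measurable_of_tendsto_metrizable h1 ?_
    rw [tendsto_pi_nhds]
    intro ν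
    exact HasOuterApproxClosed.tendsto_lintegral_apprSeq hs (toM ν)

/-- the measure with the masses `c n` at the points `p n` -/
noncomputable def em {E : Type} [MeasurableSpace E] (s : Finset ℕ) (c : ℕ → ℝ≥0) (p : ℕ → E) :
    Measure E := ∑ n ∈ s, c n • Measure.dirac (p n)

theorem em_prob {E : Type} [MeasurableSpace E] (s : Finset ℕ) (c : ℕ → ℝ≥0) (p : ℕ → E)
    (h : ∑ n ∈ s, c n = 1) : IsProbabilityMeasure (em s c p) := by
  constructor
  unfold em
  rw [Measure.finsetSum_apply]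
  simp only [Measure.smul_apply, measure_univ]
  have h1 : ∀ n, c n • (1 : ℝ≥0∞) = (c n : ℝ≥0∞) := fun n => by
    rw [ENNReal.smul_def, smul_eq_mul, mul_one]
  simp only [h1]
  rw [← ENNReal.ofNNReal_finsetSum, h, ENNReal.coe_one]

theorem em_int {E : Type} [MeasurableSpace E] (s : Finset ℕ) (c : ℕ → ℝ≥0) (p : ℕ → E)
    (F : E → ℝ) (hF : Measurable F) (C : ℝ) (hb : ∀ x, |F x| ≤ C) :
    ∫ x, F x ∂em s c p = ∑ n ∈ s, (c n : ℝ) * F (p n) := by
  unfold em
  rw [integral_finsetSum_measure]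
  · refine sum_congr rfl fun n _ => ?_
    rw [integral_smul_nnreal_measure, integral_dirac' _ _ hF.stronglyMeasurable]
    rfl
  · intro n _
    exact Integrable.of_bound hF.aestronglyMeasurable C (Eventually.of_forall fun x => hb x)

/-- the harmonic sums -/
theorem harm (Y : ℕ) (hY : 1 ≤ Y) (Z : ℕ) (hZ : Y ≤ Z) :
    Real.log ((Z : ℝ) / Y) ≤ ∑ N ∈ Icc Y Z, (1 : ℝ) / N ∧
      ∑ N ∈ Icc Y Z, (1 : ℝ) / N ≤ Real.log ((Z : ℝ) / Y) + 1 := by
  have hY0 : (0 : ℝ) < (Y : ℝ) := by exact_mod_cast hY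
  have key : Real.log (((Z : ℝ) + 1) / Y) ≤ ∑ N ∈ Icc Y Z, (1 : ℝ) / N ∧
      ∑ N ∈ Icc Y Z, (1 : ℝ) / N ≤ Real.log ((Z : ℝ) / Y) + 1 := by
    induction Z, hZ using Nat.le_induction with
    | base =>
      rw [Icc_self, sum_singleton, div_self hY0.ne', Real.log_one, zero_add]
      constructor
      · have h1 := Real.log_le_sub_one_of_pos (x := ((Y : ℝ) + 1) / Y) (by positivity)
        refine h1.trans (le_of_eq ?_)
        field_simp
        ring
      · rw [div_le_one hY0]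
        exact_mod_cast hY
    | succ Z hZ ih =>
      have hZ0 : (0 : ℝ) < (Z : ℝ) := by exact_mod_cast hY.trans hZ
      rw [sum_Icc_succ_top (by omega : Y ≤ Z + 1)]
      push_cast
      constructor
      · have h1 := Real.log_le_sub_one_of_pos (x := ((Z : ℝ) + 1 + 1) / (Z + 1)) (by positivity)
        have h2 : Real.log (((Z : ℝ) + 1 + 1) / Y) =
            Real.log (((Z : ℝ) + 1) / Y) + Real.log (((Z : ℝ) + 1 + 1) / (Z + 1)) := by
          rw [← Real.log_mul (by positivity) (by positivity)]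
          congr 1
          field_simp
        have h3 : ((Z : ℝ) + 1 + 1) / (Z + 1) - 1 = 1 / ((Z : ℝ) + 1) := by
          field_simp
          ring
        rw [h2]
        rw [h3] at h1
        linarith [ih.1]
      · have h1 := Real.one_sub_inv_le_log_of_pos (x := ((Z : ℝ) + 1) / Z) (by positivity)
        have h2 : Real.log (((Z : ℝ) + 1) / Y) =
            Real.log ((Z : ℝ) / Y) + Real.log (((Z : ℝ) + 1) / Z) := by
          rw [← Real.log_mul (by positivity) (by positivity)]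
          congr 1
          field_simp
        have h3 : 1 - (((Z : ℝ) + 1) / Z)⁻¹ = 1 / ((Z : ℝ) + 1) := by
          field_simp
          ring
        rw [h2]
        rw [h3] at h1
        linarith [ih.2]
  refine ⟨le_trans ?_ key.1, key.2⟩
  have hZ0 : (0 : ℝ) < (Z : ℝ) := by exact_mod_cast hY.trans hZ
  refine Real.log_le_log (by positivity) ?_
  exact div_le_div_of_nonneg_right (by linarith) hY0.le

/-- the ordinary empirical measures -/
theorem exists_emp (u : ℕ → I1) : ∃ e : ℕ → PX, ∀ N, 1 ≤ N → ∀ F : C(X, ℝ),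
    ∫ x, F x ∂toM (e N) = (∑ n ∈ Icc 1 N, F (pt u n)) / N := by
  have h : ∀ N : ℕ, ∃ e : PX, 1 ≤ N → ∀ F : C(X, ℝ),
      ∫ x, F x ∂toM e = (∑ n ∈ Icc 1 N, F (pt u n)) / N := by
    intro N
    by_cases hN : 1 ≤ N
    · have hN0 : (N : ℝ≥0) ≠ 0 := by
        exact_mod_cast (by omega : N ≠ 0)
      refine ⟨(⟨em (Icc 1 N) (fun _ => (N : ℝ≥0)⁻¹) (pt u), em_prob _ _ _ ?_⟩ :
        ProbabilityMeasure X), fun _ F => ?_⟩
      · rw [sum_const, Nat.card_Icc, Nat.add_sub_cancel, nsmul_eq_mul, mul_inv_cancel₀ hN0]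
      · have h1 := em_int (Icc 1 N) (fun _ => (N : ℝ≥0)⁻¹) (pt u) F F.continuous.measurable ‖F‖
          (fun x => by
            rw [← Real.norm_eq_abs]
            exact F.norm_coe_le_norm x)
        refine Eq.trans h1 ?_
        rw [div_eq_inv_mul, mul_sum]
        refine sum_congr rfl fun n _ => ?_
        rw [NNReal.coe_inv, NNReal.coe_natCast]
    · exact ⟨(⟨Measure.dirac (pt u 0), inferInstance⟩ : ProbabilityMeasure X),
        fun h => absurd h hN⟩
  choose e he using h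
  exact ⟨e, he⟩

/-- the laws of the empirical measures at a random scale -/
theorem exists_law (e : ℕ → PX) (Y Z : ℕ) (hY : 1 ≤ Y) (hZ : Y ≤ Z) :
    ∃ L : ProbabilityMeasure PX, ∀ G : C(PX, ℝ), ∫ t, G t ∂(L : Measure PX) =
      (∑ N ∈ Icc Y Z, G (e N) / N) / ∑ N ∈ Icc Y Z, (1 : ℝ) / N := by
  obtain ⟨H, hH⟩ : ∃ H : ℝ≥0, H = ∑ N ∈ Icc Y Z, (1 : ℝ≥0) / N := ⟨_, rfl⟩
  have hHR : (H : ℝ) = ∑ N ∈ Icc Y Z, (1 : ℝ) / N := by
    rw [hH]
    push_cast
    rfl
  have hH0 : H ≠ 0 := by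
    rw [hH]
    refine (sum_pos (fun N hN => ?_) ⟨Y, mem_Icc.2 ⟨le_rfl, hZ⟩⟩).ne'
    have : 0 < N := hY.trans (mem_Icc.1 hN).1
    have : (0 : ℝ≥0) < (N : ℝ≥0) := by exact_mod_cast this
    positivity
  refine ⟨⟨em (Icc Y Z) (fun N => (1 : ℝ≥0) / N / H) e, em_prob _ _ _ ?_⟩, fun G => ?_⟩
  · rw [← sum_div, ← hH, div_self hH0]
  · have h1 := em_int (Icc Y Z) (fun N => (1 : ℝ≥0) / N / H) e G G.continuous.measurable ‖G‖
      (fun x => by
        rw [← Real.norm_eq_abs]
        exact G.norm_coe_le_norm x)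
    refine Eq.trans h1 ?_
    rw [← hHR, sum_div]
    refine sum_congr rfl fun N _ => ?_
    push_cast
    ring

/-- **Existence of the random measure** along a subsequence of any sequence of windows -/
theorem exi (u : ℕ → I1) (Y Z : ℕ → ℕ) (hYZ : ∀ k, 1 ≤ Y k ∧ Y k ≤ Z k)
    (hL : Tendsto (fun k => Real.log ((Z k : ℝ) / Y k)) atTop atTop) :
    ∃ φ : ℕ → ℕ, StrictMono φ ∧ ∃ (P : Measure PX) (K : Kernel PX X),
      IsProbabilityMeasure P ∧ IsMarkovKernel K ∧ ∀ (r : ℕ) (F : Fin r → C(X, ℝ)),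
        Tendsto (fun k => (∑ N ∈ Icc (Y (φ k)) (Z (φ k)),
          (∏ i, (∑ n ∈ Icc 1 N, F i (pt u n)) / N) / N) /
            Real.log ((Z (φ k) : ℝ) / Y (φ k))) atTop (𝓝 (∫ w, ∏ i, ∫ x, F i x ∂K w ∂P)) := by
  obtain ⟨e, he⟩ := exists_emp u
  have h1 := fun k => exists_law e (Y k) (Z k) (hYZ k).1 (hYZ k).2
  choose L hLG using h1
  obtain ⟨Λ, φ, hφ, hlim⟩ := CompactSpace.tendsto_subseq L
  obtain ⟨K, hK⟩ : ∃ K : Kernel PX X, ∀ t, K t = toM t := ⟨⟨toM, meas_toM⟩, fun t => rfl⟩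
  refine ⟨φ, hφ, Λ, K, inferInstance, ⟨fun t => by rw [hK]; infer_instance⟩, fun r F => ?_⟩
  simp only [hK]
  obtain ⟨G, hG⟩ : ∃ G : C(PX, ℝ), ∀ t, G t = ∏ i, ∫ x, F i x ∂toM t :=
    ⟨⟨fun t => ∏ i, ∫ x, F i x ∂toM t, continuous_finsetProd _ fun i _ => cont_int (F i)⟩,
      fun t => rfl⟩
  simp only [← hG]
  have h2 : Tendsto (fun k => ∫ t, G t ∂(L (φ k) : Measure PX)) atTop
      (𝓝 (∫ t, G t ∂(Λ : Measure PX))) :=
    (ProbabilityMeasure.tendsto_iff_forall_integral_tendsto.1 hlim)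
      (BoundedContinuousFunction.mkOfCompact G)
  have hLφ := hL.comp hφ.tendsto_atTop
  -- the ratio of the harmonic sum and the logarithm
  have h3 : Tendsto (fun k => (∑ N ∈ Icc (Y (φ k)) (Z (φ k)), (1 : ℝ) / N) /
      Real.log ((Z (φ k) : ℝ) / Y (φ k))) atTop (𝓝 1) := by
    have h4 : Tendsto (fun k => 1 + 1 / Real.log ((Z (φ k) : ℝ) / Y (φ k))) atTop (𝓝 1) := by
      have h5 : Tendsto (fun k => 1 / Real.log ((Z (φ k) : ℝ) / Y (φ k))) atTop (𝓝 0) :=
        hLφ.const_div_atTop 1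
      have h6 := h5.const_add 1
      rwa [add_zero] at h6
    refine tendsto_of_tendsto_of_tendsto_of_le_of_le' tendsto_const_nhds h4 ?_ ?_
    · filter_upwards [hLφ.eventually_gt_atTop 0] with k hk
      have hk' : 0 < Real.log ((Z (φ k) : ℝ) / Y (φ k)) := hk
      rw [le_div_iff₀ hk', one_mul]
      exact (harm _ (hYZ _).1 _ (hYZ _).2).1
    · filter_upwards [hLφ.eventually_gt_atTop 0] with k hk
      have hk' : 0 < Real.log ((Z (φ k) : ℝ) / Y (φ k)) := hk
      rw [div_le_iff₀ hk', add_mul, one_mul, one_div, inv_mul_cancel₀ hk'.ne']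
      exact (harm _ (hYZ _).1 _ (hYZ _).2).2
  have h4 := h2.mul h3
  rw [mul_one] at h4
  refine h4.congr' ?_
  filter_upwards [hLφ.eventually_gt_atTop 0] with k hk
  have hk' : 0 < Real.log ((Z (φ k) : ℝ) / Y (φ k)) := hk
  have hH0 : 0 < ∑ N ∈ Icc (Y (φ k)) (Z (φ k)), (1 : ℝ) / N :=
    hk'.trans_le (harm _ (hYZ _).1 _ (hYZ _).2).1
  rw [hLG, div_mul_div_comm, mul_comm (∑ N ∈ Icc (Y (φ k)) (Z (φ k)), (1 : ℝ) / N),
    mul_div_mul_right _ _ hH0.ne']
  congr 1
  refine sum_congr rfl fun N hN => ?_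
  rw [hG, prod_congr rfl fun i _ => he N ((hYZ _).1.trans (mem_Icc.1 hN).1) (F i)]

/-- **Every quasi-generic measure is the mean of such a random measure** -/
theorem mean_of {u : ℕ → I1} {κ : Measure X} (h : Pool.Agent.H24.WT.QGW u κ) :
    ∃ (Ω : Type) (_ : MeasurableSpace Ω) (P : Measure Ω) (K : Kernel Ω X),
      IsProbabilityMeasure P ∧ IsMarkovKernel K ∧ RScale u P K ∧ P.bind K = κ := by
  obtain ⟨hκ, Y, Z, hYZ, hL, hF⟩ := h
  obtain ⟨φ, hφ, P, K, hP, hK, hlim⟩ := exi u Y Z (fun k => ⟨(hYZ k).1, (hYZ k).2.1⟩) hL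
  have hLφ : Tendsto (fun k => Real.log ((Z (φ k) : ℝ) / Y (φ k))) atTop atTop :=
    hL.comp hφ.tendsto_atTop
  have hR : RScale u P K := ⟨fun k => Y (φ k), fun k => Z (φ k), fun k => hYZ (φ k), hLφ, hlim⟩
  refine ⟨PX, inferInstance, P, K, hP, hK, hR, ?_⟩
  have : IsProbabilityMeasure (P.bind K) := (rscale P (fun t => K t) K.measurable hR).1.1
  apply ext_of_forall_integral_eq_of_IsFiniteMeasure
  intro F
  have hb : ∀ x, |F x| ≤ ‖F‖ := fun x => by
    rw [← Real.norm_eq_abs]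
    exact F.norm_coe_le_norm x
  have h1 := hlim 1 (fun _ => ⟨fun x => F x, F.continuous⟩)
  simp only [Fin.prod_univ_one, ContinuousMap.coe_mk] at h1
  have h2 := tend_of (Y := fun k => Y (φ k)) (Z := fun k => Z (φ k))
    (fun k => ⟨(hYZ (φ k)).1, (hYZ (φ k)).2.1⟩) hLφ (fun n => F (pt u n)) ‖F‖ (fun n => hb _) _ h1
  have h3 := (hF ⟨fun x => F x, F.continuous⟩).comp hφ.tendsto_atTop
  rw [int_bind P (fun t => K t) K.measurable F F.continuous.measurable hb]
  exact tendsto_nhds_unique h2 h3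

end Pool.Agent.H36.KW
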