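import Pool.Agent.H36.KW.K3
import Pool.Agent.H36.KW.C2

/-!
# Structure of Furstenberg systems (MP_c59857_nt): the ordinary averages at a random scale
-/

set_option autoImplicit false

open MeasureTheory ProbabilityTheory Filter Topology Finset

namespace Pool.Agent.H36.KW

open Pool.Agent.H89.MT (I1 X pt z1 IsMult)
open Pool.Agent.H36.RP (S past remote remote_le past_le comp ae_comp meas_y abs_y Trit)
open Pool.Agent.H95.RP (bias)
open Pool.Agent.H24.WT (QGW qgw_mp)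
open Pool.Agent.H92.WN (FinU T_GLR)
open Pool.Agent.H93.ES (T_QSU)
open Pool.Agent.H28.MG (Tri Dec inv_sets aINV set_all qg_of spec_all bri dec finU_of V V_meas V_mem)

/-- the structure of an invariant measure -/
def Str (ν : Measure X) [IsProbabilityMeasure ν] (v w : X → ℝ) : Prop :=
  iCondIndepFun remote remote_le (fun (n : ℤ) (x : X) => x n) ν ∧
  (∀ A : Set X, MeasurableSet[remote] A → ∀ m : ℤ,
    ∃ B : Set X, MeasurableSet[bias ν m] B ∧ A =ᵐ[ν] B) ∧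
  (∀ A : Set X, MeasurableSet A → S ⁻¹' A = A →
    ∃ B : Set X, MeasurableSet[remote] B ∧ A =ᵐ[ν] B) ∧
  ((∀ (s : Finset ℤ) (n : ℤ) (e : ℤ → ℕ), n ∉ s →
    ∫ x, (x n : ℝ) * ∏ k ∈ s, (x k : ℝ) ^ e k ∂ν = 0) ↔ Pool.Agent.H28.MG.P ν 0 =ᵐ[ν] 0) ∧
  ∀ᵐ x ∂ν, Dec ν (comp ν x) (v x) (w x)

/-- the random measure `K` is a limit law of the ordinary empirical measures of the orbit of `u`,
at a random scale -/
def RScale (u : ℕ → I1) {Ω : Type*} [MeasurableSpace Ω] (P : Measure Ω) (K : Ω → Measure X) :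
    Prop := ∃ Y Z : ℕ → ℕ, (∀ k, 1 ≤ Y k ∧ Y k ≤ Z k ∧
      Real.log (Z k) ^ (24 / 25 : ℝ) ≤ Real.log ((Z k : ℝ) / Y k)) ∧
    Tendsto (fun k => Real.log ((Z k : ℝ) / Y k)) atTop atTop ∧
    ∀ (r : ℕ) (F : Fin r → C(X, ℝ)), Tendsto (fun k => (∑ N ∈ Icc (Y k) (Z k),
      (∏ i, (∑ n ∈ Icc 1 N, F i (pt u n)) / N) / N) / Real.log ((Z k : ℝ) / Y k)) atTop
        (𝓝 (∫ w, ∏ i, ∫ x, F i x ∂K w ∂P))

/-- the mean of the random measure is quasi-generic and almost every `K w` is invariant -/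
theorem rscale {u : ℕ → I1} {Ω : Type*} [MeasurableSpace Ω] (P : Measure Ω)
    [IsProbabilityMeasure P] (K : Ω → Measure X) [hK : ∀ w, IsProbabilityMeasure (K w)]
    (hKm : Measurable K) (h : RScale u P K) :
    QGW u (P.bind K) ∧ ∀ᵐ w ∂P, MeasurePreserving S (K w) (K w) := by
  obtain ⟨Y, Z, hYZ, hL, hF⟩ := h
  constructor
  · refine qgw_of P K hKm Y Z hYZ hL fun F => ?_
    have h1 := hF 1 (fun _ => F)
    simpa only [Fin.prod_univ_one] using h1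
  · refine inv_of P K hKm Y Z (fun k => ⟨(hYZ k).1, (hYZ k).2.1⟩) hL (u := u) fun F => ?_
    have h1 := hF 2 (fun _ => F)
    simpa only [Fin.prod_univ_two, ← sq] using h1

/-- **Structure of the Furstenberg systems, and of the ordinary averages at almost every scale** -/
theorem main (hG : T_GLR) (hQ : T_QSU) (q : ℕ) [NeZero q] : ∃ c : ℝ, 0 < c ∧ ∀ u : ℕ → I1,
    Tri u → (∀ m n : ℕ, m.Coprime n → (u (m * n) : ℝ) = u m * u n) →
    ∀ (κ : Measure X) [IsProbabilityMeasure κ], QGW u κ →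
      ∃ v w : X → ℝ, Measurable v ∧ Measurable w ∧ (∀ x, 0 ≤ v x ∧ v x ≤ w x ∧ w x ≤ 1) ∧
        Str κ v w ∧
        ((∃ χ : DirichletCharacter ℂ q, ∀ p : ℕ, p.Prime → ((u p : ℝ) : ℂ) = -χ p) →
          c ≤ ∫ x, w x ∂κ) ∧
        ∀ (Ω : Type*) [MeasurableSpace Ω] (P : Measure Ω) [IsProbabilityMeasure P]
          (K : Ω → Measure X) [∀ t, IsProbabilityMeasure (K t)], Measurable K → κ = P.bind K →
          RScale u P K → ∀ᵐ t ∂P, Str (K t) v w := by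
  obtain ⟨c, hc, hfar⟩ := Pool.Agent.H24.WN.far_mult q
  refine ⟨c, hc, fun u hT hm κ _ hκ => ?_⟩
  obtain ⟨hS, hTr⟩ := Pool.Agent.H2.RP.pf_MP u hT κ (qg_of hκ)
  have hset := set_all hT hm hκ
  have hind : iCondIndepFun remote remote_le (fun (n : ℤ) (x : X) => x n) κ :=
    Pool.Agent.H17.RP.pf_IND κ hset
  have hinv : ∀ A : Set X, MeasurableSet A → S ⁻¹' A = A →
      κ[A.indicator (fun _ => (1 : ℝ)) | remote] =ᵐ[κ] A.indicator (fun _ => (1 : ℝ)) :=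
    aINV κ hS
  obtain ⟨hB, hN⟩ := bri κ hTr hset hinv
  have hdec := dec κ hS (spec_all hG hQ hm hκ) hB hN
  refine ⟨V κ, Pool.Agent.H24.WN.W κ, V_meas κ, Pool.Agent.H24.WN.W_meas κ, V_mem κ,
    ⟨hind, fun A hA m =>
      Pool.Agent.H95.RP.gen_sets Pool.Agent.H36.RP.pf_APX κ hTr hind m A hA,
      inv_sets κ hS, Pool.Agent.H85.RP.pf_CHO κ hS hTr hset hind, hdec⟩, fun hχ => ?_, ?_⟩
  · obtain ⟨G, hGm, hG1, hGc, hGF⟩ := hfar u hm hχ κ hκ
    exact (Pool.Agent.H24.WN.white_of hκ (finU_of hG hQ hm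
      (Pool.Agent.H24.WN.summ_chi u hχ))).2 c G hGm hG1 hGc hGF
  · intro Ω _ P _ K _ hKm hκK hR
    have hKS := (rscale P K hKm hR).2
    filter_upwards [str_K P K κ hKm hκK hS hKS hTr hset,
      dec_K P K κ hKm hκK hS hKS hTr hset (V κ) (Pool.Agent.H24.WN.W κ) hdec] with t h1 h2
    exact ⟨h1.1, h1.2.1, h1.2.2.1, h1.2.2.2, h2⟩

end Pool.Agent.H36.KW
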