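import Pool.Agent.H36.KW.Fin

/-!
# Structure of Furstenberg systems (MP_c59857_nt): the two forms of the theorem
-/

set_option autoImplicit false

open MeasureTheory ProbabilityTheory Filter Topology Finset

namespace Pool.Agent.H36.KW

open Pool.Agent.H89.MT (I1 X pt z1 IsMult)
open Pool.Agent.H24.WT (QGW)
open Pool.Agent.H92.WN (T_GLR)
open Pool.Agent.H93.ES (T_QSU)
open Pool.Agent.H28.MG (Tri)

/-- **Structure of the Furstenberg systems, and of the ordinary averages at almost every scale** -/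
theorem main2 (hG : T_GLR) (hQ : T_QSU) (q : ℕ) [NeZero q] : ∃ c : ℝ, 0 < c ∧ ∀ u : ℕ → I1,
    Tri u → (∀ m n : ℕ, m.Coprime n → (u (m * n) : ℝ) = u m * u n) →
    (∀ (κ : Measure X) [IsProbabilityMeasure κ], QGW u κ →
      ∃ v w : X → ℝ, Measurable v ∧ Measurable w ∧ (∀ x, 0 ≤ v x ∧ v x ≤ w x ∧ w x ≤ 1) ∧
        Str κ v w ∧
        ((∃ χ : DirichletCharacter ℂ q, ∀ p : ℕ, p.Prime → ((u p : ℝ) : ℂ) = -χ p) →
          c ≤ ∫ x, w x ∂κ)) ∧
    ∀ (Ω : Type*) [MeasurableSpace Ω] (P : Measure Ω) [IsProbabilityMeasure P]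
      (K : Kernel Ω X) [IsMarkovKernel K], RScale u P K →
      ∃ v w : X → ℝ, Measurable v ∧ Measurable w ∧ (∀ x, 0 ≤ v x ∧ v x ≤ w x ∧ w x ≤ 1) ∧
        (∀ᵐ t ∂P, Str (K t) v w) ∧
        ((∃ χ : DirichletCharacter ℂ q, ∀ p : ℕ, p.Prime → ((u p : ℝ) : ℂ) = -χ p) →
          c ≤ ∫ t, ∫ x, w x ∂K t ∂P) := by
  obtain ⟨c, hc, h⟩ := main hG hQ q
  refine ⟨c, hc, fun u hT hm => ⟨fun κ _ hκ => ?_, fun Ω _ P _ K _ hR => ?_⟩⟩
  · obtain ⟨v, w, h1, h2, h3, h4, h5, -⟩ := h u hT hm κ hκ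
    exact ⟨v, w, h1, h2, h3, h4, h5⟩
  · have hq : QGW u (P.bind K) := (rscale P (fun t => K t) K.measurable hR).1
    have : IsProbabilityMeasure (P.bind K) := hq.1
    obtain ⟨v, w, h1, h2, h3, -, h5, h6⟩ := h u hT hm (P.bind K) hq
    refine ⟨v, w, h1, h2, h3, h6 Ω P (fun t => K t) K.measurable rfl hR, fun hχ => ?_⟩
    have h7 := h5 hχ
    rw [int_bind P (fun t => K t) K.measurable w h2 (C := 1) fun x => by
      rw [abs_of_nonneg ((h3 x).1.trans (h3 x).2.1)]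
      exact (h3 x).2.2] at h7
    exact h7

end Pool.Agent.H36.KW
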