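import Pool.Agent.H36.RP.CMP2
import Pool.Agent.H50.SS.MEP

/-!
# A random invariant measure and its mean (MP_c59857_nt): the invariant sets

`K w` is a random probability measure on `X`, invariant under the shift, and its mean `κ` is
`P.bind K`. The conditional expectations given the invariant sets of a bounded function, for `κ`
and for almost every `K w`, are the same (pointwise ergodic theorem).
-/

set_option autoImplicit false

open MeasureTheory ProbabilityTheory Filter Topology Finset

namespace Pool.Agent.H36.KW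

open Pool.Agent.H89.MT (I1 X pt z1 IsMult)
open Pool.Agent.H36.RP (S past remote remote_le past_le comp ae_comp meas_y abs_y Trit IS IS_le)
open Pool.Agent.H24.EG (Alg alg_countable alg_gen alg_meas alg_pi)

/-- the limit of the averages along the shift -/
noncomputable def ph (h : X → ℝ) (x : X) : ℝ :=
  (Pool.Agent.H50.SS.ph0 S (fun y => (h y : ℂ)) x).re

/-- the limit of the averages is the conditional expectation, for every invariant measure -/
theorem ph_eq (ν : Measure X) [IsProbabilityMeasure ν] (hS : MeasurePreserving S ν ν) {h : X → ℝ}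
    (hm : Measurable h) {C : ℝ} (hb : ∀ x, |h x| ≤ C) : ph h =ᵐ[ν] ν[h | IS] := by
  have hF : Measurable fun y => (h y : ℂ) := Complex.measurable_ofReal.comp hm
  have hFb : ∀ x, ‖(fun y => (h y : ℂ)) x‖ ≤ C := fun x => by
    show ‖(h x : ℂ)‖ ≤ C
    rw [Complex.norm_real, Real.norm_eq_abs]
    exact hb x
  have h1 := Pool.Agent.H50.SS.ph0_eq hS hF hFb
  have hi : Integrable (fun y => (h y : ℂ)) ν :=
    Integrable.of_bound hF.aestronglyMeasurable C (Eventually.of_forall hFb)
  have h2 := ContinuousLinearMap.comp_condExp_comm (m := MeasurableSpace.invariants S) hi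
    Complex.reCLM
  have e : (Complex.reCLM ∘ fun y => (h y : ℂ)) = h := by
    funext y
    show (h y : ℂ).re = h y
    exact Complex.ofReal_re _
  rw [e] at h2
  filter_upwards [h1, h2] with x h1 h2
  unfold ph
  rw [h1]
  exact h2

section

variable {Ω : Type*} [MeasurableSpace Ω] (P : Measure Ω) (K : Ω → Measure X)
  [hK : ∀ w, IsProbabilityMeasure (K w)]

omit hK in
/-- from almost everywhere for the mean to almost everywhere for almost every `K w` -/
theorem ae_K (hKm : Measurable K) {p : X → Prop} (h : ∀ᵐ x ∂P.bind K, p x) :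
    ∀ᵐ w ∂P, ∀ᵐ x ∂K w, p x :=
  Measure.ae_ae_of_ae_bind hKm.aemeasurable h

variable (κ : Measure X) [IsProbabilityMeasure κ] (hKm : Measurable K) (hκ : κ = P.bind K)
  (hS : MeasurePreserving S κ κ) (hKS : ∀ᵐ w ∂P, MeasurePreserving S (K w) (K w))

include hKm hκ hS hKS

/-- the conditional expectations given the invariant sets -/
theorem cond_IS {h : X → ℝ} (hm : Measurable h) {C : ℝ} (hb : ∀ x, |h x| ≤ C) :
    ∀ᵐ w ∂P, κ[h | IS] =ᵐ[K w] (K w)[h | IS] := by
  have h1 : ∀ᵐ x ∂P.bind K, ph h x = (κ[h | IS]) x := by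
    rw [← hκ]
    exact ph_eq κ hS hm hb
  filter_upwards [ae_K P K hKm h1, hKS] with w h1 h2
  have h3 := ph_eq (K w) h2 hm hb
  filter_upwards [h1, h3] with x h1 h3
  rw [← h1, ← h3]

/-- **(K3)** the ergodic components of `κ` and those of `K w` are the same -/
theorem comp_K : ∀ᵐ w ∂P, ∀ᵐ x ∂K w, comp (K w) x = comp κ x := by
  have h1 : ∀ᵐ w ∂P, ∀ B ∈ Alg, κ[B.indicator (fun _ => (1 : ℝ)) | IS] =ᵐ[K w]
      (K w)[B.indicator (fun _ => (1 : ℝ)) | IS] := by
    rw [ae_ball_iff alg_countable]
    intro B hB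
    refine cond_IS P K κ hKm hκ hS hKS (measurable_const.indicator (alg_meas hB)) (C := 1)
      fun x => ?_
    by_cases hx : x ∈ B
    · rw [Set.indicator_of_mem hx, abs_one]
    · rw [Set.indicator_of_notMem hx, abs_zero]
      exact zero_le_one
  have h2 : ∀ᵐ x ∂P.bind K, ∀ B ∈ Alg, (comp κ x).real B =
      (κ[B.indicator (fun _ => (1 : ℝ)) | IS]) x := by
    rw [← hκ, ae_ball_iff alg_countable]
    intro B hB
    exact condExpKernel_ae_eq_condExp (μ := κ) IS_le (alg_meas hB)
  filter_upwards [h1, ae_K P K hKm h2] with w h1 h2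
  have h3 : ∀ᵐ x ∂K w, ∀ B ∈ Alg, (comp (K w) x).real B =
      ((K w)[B.indicator (fun _ => (1 : ℝ)) | IS]) x := by
    rw [ae_ball_iff alg_countable]
    intro B hB
    exact condExpKernel_ae_eq_condExp (μ := K w) IS_le (alg_meas hB)
  have h4 : ∀ᵐ x ∂K w, ∀ B ∈ Alg, (κ[B.indicator (fun _ => (1 : ℝ)) | IS]) x =
      ((K w)[B.indicator (fun _ => (1 : ℝ)) | IS]) x := by
    rw [ae_ball_iff alg_countable]
    intro B hB
    exact h1 B hB
  filter_upwards [h2, h3, h4] with x h2 h3 h4
  apply ext_of_generate_finite Alg alg_gen alg_pi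
  · intro B hB
    have h5 : (comp (K w) x).real B = (comp κ x).real B := by rw [h2 B hB, h3 B hB, h4 B hB]
    exact (measureReal_eq_measureReal_iff).mp h5
  · rw [measure_univ, measure_univ]

/-- what holds on almost every component of `κ` holds on almost every component of almost every
`K w` -/
theorem ae_comp_K {p : Measure X → Prop} (h : ∀ᵐ x ∂κ, p (comp κ x)) :
    ∀ᵐ w ∂P, ∀ᵐ x ∂K w, p (comp (K w) x) := by
  have h' : ∀ᵐ x ∂P.bind K, p (comp κ x) := by
    rw [← hκ]
    exact h
  filter_upwards [comp_K P K κ hKm hκ hS hKS, ae_K P K hKm h'] with w h1 h2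
  filter_upwards [h1, h2] with x h1 h2
  rw [h1]
  exact h2

end

end Pool.Agent.H36.KW
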