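import Pool.Agent.H36.KW.K1

/-!
# A random invariant measure and its mean (MP_c59857_nt): the remote past
-/

set_option autoImplicit false

open MeasureTheory ProbabilityTheory Filter Topology Finset

namespace Pool.Agent.H36.KW

open Pool.Agent.H89.MT (I1 X pt z1 IsMult)
open Pool.Agent.H36.RP (S past remote remote_le remote_le_past past_le comp ae_comp meas_y abs_y
  Trit IS IS_le exists_version quad lin_cond)

/-- the disintegration into the components -/
theorem disint (ν : Measure X) [IsProbabilityMeasure ν] {g : X → ℝ} (hg : Integrable g ν) :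
    ∫ x, g x ∂ν = ∫ x, ∫ y, g y ∂comp ν x ∂ν := by
  have h1 := condExp_ae_eq_integral_condExpKernel (μ := ν) IS_le hg
  have h2 : ∫ x, (ν[g | IS]) x ∂ν = ∫ x, g x ∂ν := integral_condExp IS_le
  rw [← h2]
  exact integral_congr_ae h1

/-- integrals over a set of one of the sigma algebras -/
theorem int_of_comp (ν : Measure X) [IsProbabilityMeasure ν] {f V : X → ℝ} {C : ℝ}
    (hf : Measurable f) (hfC : ∀ x, |f x| ≤ C) (hV : Measurable V) (hVC : ∀ x, |V x| ≤ C)
    (A : Set X) (hA : MeasurableSet A)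
    (h : ∀ᵐ x ∂ν, ∫ y in A, V y ∂comp ν x = ∫ y in A, f y ∂comp ν x) :
    ∫ x in A, V x ∂ν = ∫ x in A, f x ∂ν := by
  have hfi : Integrable f ν :=
    Integrable.of_bound hf.aestronglyMeasurable C (Eventually.of_forall fun x => hfC x)
  have hVi : Integrable V ν :=
    Integrable.of_bound hV.aestronglyMeasurable C (Eventually.of_forall fun x => hVC x)
  rw [← integral_indicator hA, ← integral_indicator hA, disint ν (hVi.indicator hA),
    disint ν (hfi.indicator hA)]
  refine integral_congr_ae ?_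
  filter_upwards [h] with x hx
  show ∫ y, A.indicator V y ∂comp ν x = ∫ y, A.indicator f y ∂comp ν x
  rw [integral_indicator hA, integral_indicator hA]
  exact hx

/-- from the components to the measure -/
theorem cond_of_comp (ν : Measure X) [IsProbabilityMeasure ν] {f V : X → ℝ} {C : ℝ}
    (hf : Measurable f) (hfC : ∀ x, |f x| ≤ C) (hVm : Measurable V) (hVC : ∀ x, |V x| ≤ C)
    {mm : MeasurableSpace X} (hmm : mm ≤ (MeasurableSpace.pi : MeasurableSpace X))
    (hV : Measurable[mm] V)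
    (h : ∀ᵐ x ∂ν, (comp ν x)[f | mm] =ᵐ[comp ν x] V) : ν[f | mm] =ᵐ[ν] V := by
  have hfi : ∀ ν : @Measure X MeasurableSpace.pi, IsProbabilityMeasure ν → Integrable f ν :=
    fun ν _ => Integrable.of_bound hf.aestronglyMeasurable C (Eventually.of_forall fun x => hfC x)
  have hVi : ∀ ν : @Measure X MeasurableSpace.pi, IsProbabilityMeasure ν → Integrable V ν :=
    fun ν _ => Integrable.of_bound hVm.aestronglyMeasurable C
      (Eventually.of_forall fun x => hVC x)
  refine (ae_eq_condExp_of_forall_setIntegral_eq hmm (hfi ν inferInstance)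
    (fun _ _ _ => (hVi ν inferInstance).integrableOn) (fun A hA _ => ?_)
    hV.stronglyMeasurable.aestronglyMeasurable).symm
  refine int_of_comp ν hf hfC hVm hVC A (hmm _ hA) ?_
  filter_upwards [h] with x hx
  rw [← setIntegral_condExp hmm (hfi (comp ν x) inferInstance) hA]
  refine setIntegral_congr_ae (hmm _ hA) ?_
  filter_upwards [hx] with y hy _
  exact hy.symm

/-- the values of the coordinates -/
theorem trit_K {Ω : Type*} [MeasurableSpace Ω] (P : Measure Ω) (K : Ω → Measure X)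
    (κ : Measure X) (hKm : Measurable K) (hκ : κ = P.bind K) (hT : Trit κ) :
    ∀ᵐ w ∂P, Trit (K w) := by
  have h1 : ∀ᵐ x ∂P.bind K, ∀ k : ℤ, (x k : ℝ) = -1 ∨ (x k : ℝ) = 0 ∨ (x k : ℝ) = 1 := by
    rw [← hκ]
    exact hT
  exact ae_K P K hKm h1

section

variable {Ω : Type*} [MeasurableSpace Ω] (P : Measure Ω) (K : Ω → Measure X)
  [hK : ∀ w, IsProbabilityMeasure (K w)]
  (κ : Measure X) [IsProbabilityMeasure κ] (hKm : Measurable K) (hκ : κ = P.bind K)
  (hS : MeasurePreserving S κ κ) (hKS : ∀ᵐ w ∂P, MeasurePreserving S (K w) (K w))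
  (hT : Trit κ)
  (hset : ∀ (m : ℤ) (ψ : I1 → ℝ), Measurable ψ → (∀ a, |ψ a| ≤ 1) →
      κ[fun x => ψ (x m) | past (m - 1)] =ᵐ[κ] κ[fun x => ψ (x m) | remote])
  (hinv : ∀ A : Set X, MeasurableSet A → S ⁻¹' A = A →
      κ[A.indicator (fun _ => (1 : ℝ)) | remote] =ᵐ[κ] A.indicator (fun _ => (1 : ℝ)))

include hKm hκ hS hKS hT hset hinv

/-- one function: the predictions for `κ` are predictions for almost every `K w` -/
theorem pred_K (m : ℤ) (ψ : I1 → ℝ) (hψ : Measurable ψ) (hψ1 : ∀ a, |ψ a| ≤ 1) :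
    ∀ᵐ w ∂P, (K w)[fun y => ψ (y m) | past (m - 1)] =ᵐ[K w] (K w)[fun y => ψ (y m) | remote] ∧
      κ[fun y => ψ (y m) | remote] =ᵐ[K w] (K w)[fun y => ψ (y m) | remote] := by
  have hfm : Measurable fun x : X => ψ (x m) := hψ.comp (measurable_pi_apply m)
  obtain ⟨V, hVm, hV1, hV⟩ := exists_version κ (fun x => ψ (x m)) (fun x => hψ1 _) remote
  obtain ⟨hc1, hc2⟩ := Pool.Agent.H36.RP.pf_comp κ hT hset hinv
  have h1 : ∀ᵐ x ∂κ, (comp κ x)[fun y => ψ (y m) | past (m - 1)] =ᵐ[comp κ x] V ∧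
      (comp κ x)[fun y => ψ (y m) | remote] =ᵐ[comp κ x] V := by
    filter_upwards [hc1, hc2 m ψ hψ hψ1, ae_comp κ hV] with x h1 h2 h3
    have h4 : (comp κ x)[fun y => ψ (y m) | remote] =ᵐ[comp κ x] V := h2.symm.trans h3
    exact ⟨(h1 m ψ hψ hψ1).trans h4, h4⟩
  have h2 := ae_comp_K P K κ hKm hκ hS hKS
    (p := fun ν => ν[fun y => ψ (y m) | past (m - 1)] =ᵐ[ν] V ∧
      ν[fun y => ψ (y m) | remote] =ᵐ[ν] V) h1
  have h3 : ∀ᵐ x ∂P.bind K, (κ[fun y => ψ (y m) | remote]) x = V x := by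
    rw [← hκ]
    exact hV
  filter_upwards [h2, ae_K P K hKm h3] with w h2 h3
  have h4 : (K w)[fun y => ψ (y m) | past (m - 1)] =ᵐ[K w] V :=
    cond_of_comp (K w) hfm (fun x => hψ1 _) (hVm.mono remote_le le_rfl) hV1 (past_le _)
      (hVm.mono (remote_le_past _) le_rfl) (h2.mono fun x hx => hx.1)
  have h5 : (K w)[fun y => ψ (y m) | remote] =ᵐ[K w] V :=
    cond_of_comp (K w) hfm (fun x => hψ1 _) (hVm.mono remote_le le_rfl) hV1 remote_le hVm
      (h2.mono fun x hx => hx.2)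
  exact ⟨h4.trans h5.symm, Filter.EventuallyEq.trans h3 h5.symm⟩

/-- **(K2)** all the functions -/
theorem set_K : ∀ᵐ w ∂P, (∀ (m : ℤ) (ψ : I1 → ℝ), Measurable ψ → (∀ a, |ψ a| ≤ 1) →
      (K w)[fun y => ψ (y m) | past (m - 1)] =ᵐ[K w] (K w)[fun y => ψ (y m) | remote]) ∧
    ∀ (m : ℤ) (j : ℕ), κ[fun y => (y m : ℝ) ^ j | remote] =ᵐ[K w]
      (K w)[fun y => (y m : ℝ) ^ j | remote] := by
  have hpow : ∀ j : ℕ, Measurable (fun t : I1 => (t : ℝ) ^ j) ∧
      ∀ t : I1, |(t : ℝ) ^ j| ≤ 1 := by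
    intro j
    refine ⟨measurable_subtype_coe.pow_const j, fun t => ?_⟩
    rw [abs_pow]
    exact pow_le_one₀ (abs_nonneg _) (abs_le.2 t.2)
  have h1 : ∀ᵐ w ∂P, ∀ (m : ℤ) (j : ℕ),
      (K w)[fun y => (y m : ℝ) ^ j | past (m - 1)] =ᵐ[K w]
        (K w)[fun y => (y m : ℝ) ^ j | remote] ∧
      κ[fun y => (y m : ℝ) ^ j | remote] =ᵐ[K w] (K w)[fun y => (y m : ℝ) ^ j | remote] := by
    rw [ae_all_iff]
    intro m
    rw [ae_all_iff]
    intro j
    exact pred_K P K κ hKm hκ hS hKS hT hset hinv m (fun t => (t : ℝ) ^ j) (hpow j).1 (hpow j).2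
  filter_upwards [h1, trit_K P K κ hKm hκ hT] with w hw hTw
  refine ⟨fun m ψ _ _ => ?_, fun m j => (hw m j).2⟩
  obtain ⟨a, b, c, habc⟩ := quad ψ
  have h2 := lin_cond (K w) hTw m ψ a b c habc (past_le (m - 1))
  have h3 := lin_cond (K w) hTw m ψ a b c habc remote_le
  filter_upwards [h2, h3, (hw m 1).1, (hw m 2).1] with y h2 h3 h4 h5
  rw [h2, h3, h4, h5]

end

end Pool.Agent.H36.KW
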