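import Pool.Agent.H36.KW.K2
import Pool.Agent.H28.MG.Fin

/-!
# A random invariant measure and its mean (MP_c59857_nt): the structure for almost every `K w`
-/

set_option autoImplicit false

open MeasureTheory ProbabilityTheory Filter Topology Finset

namespace Pool.Agent.H36.KW

open Pool.Agent.H89.MT (I1 X pt z1 IsMult)
open Pool.Agent.H36.RP (S past remote remote_le remote_le_past past_le comp ae_comp meas_y abs_y
  Trit IS IS_le exists_version quad lin_cond)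
open Pool.Agent.H95.RP (bias)
open Pool.Agent.H28.MG (Dec inv_sets aINV)

section

variable {Ω : Type*} [MeasurableSpace Ω] (P : Measure Ω) (K : Ω → Measure X)
  [hK : ∀ w, IsProbabilityMeasure (K w)]
  (κ : Measure X) [IsProbabilityMeasure κ] (hKm : Measurable K) (hκ : κ = P.bind K)
  (hS : MeasurePreserving S κ κ) (hKS : ∀ᵐ w ∂P, MeasurePreserving S (K w) (K w))
  (hT : Trit κ)
  (hset : ∀ (m : ℤ) (ψ : I1 → ℝ), Measurable ψ → (∀ a, |ψ a| ≤ 1) →
      κ[fun x => ψ (x m) | past (m - 1)] =ᵐ[κ] κ[fun x => ψ (x m) | remote])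

include hKm hκ hS hKS hT hset

/-- the bias for `K w` is the bias for `κ` -/
theorem P_K : ∀ᵐ w ∂P, ∀ m : ℤ,
    Pool.Agent.H28.MG.P κ m =ᵐ[K w] Pool.Agent.H28.MG.P (K w) m := by
  filter_upwards [set_K P K κ hKm hκ hS hKS hT hset (aINV κ hS)] with w hw m
  have h1 := hw.2 m 1
  simp only [pow_one] at h1
  exact h1

/-- the structure given the remote past -/
theorem str_K : ∀ᵐ w ∂P,
    iCondIndepFun remote remote_le (fun (n : ℤ) (x : X) => x n) (K w) ∧
    (∀ A : Set X, MeasurableSet[remote] A → ∀ m : ℤ,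
      ∃ B : Set X, MeasurableSet[bias (K w) m] B ∧ A =ᵐ[K w] B) ∧
    (∀ A : Set X, MeasurableSet A → S ⁻¹' A = A →
      ∃ B : Set X, MeasurableSet[remote] B ∧ A =ᵐ[K w] B) ∧
    ((∀ (s : Finset ℤ) (n : ℤ) (e : ℤ → ℕ), n ∉ s →
      ∫ x, (x n : ℝ) * ∏ k ∈ s, (x k : ℝ) ^ e k ∂(K w) = 0) ↔
        Pool.Agent.H28.MG.P (K w) 0 =ᵐ[K w] 0) := by
  filter_upwards [set_K P K κ hKm hκ hS hKS hT hset (aINV κ hS), hKS,
    trit_K P K κ hKm hκ hT] with w hw hSw hTw
  have hind : iCondIndepFun remote remote_le (fun (n : ℤ) (x : X) => x n) (K w) :=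
    Pool.Agent.H17.RP.pf_IND (K w) hw.1
  exact ⟨hind, fun A hA m =>
    Pool.Agent.H95.RP.gen_sets Pool.Agent.H36.RP.pf_APX (K w) hTw hind m A hA,
    inv_sets (K w) hSw, Pool.Agent.H85.RP.pf_CHO (K w) hSw hTw hw.1 hind⟩

/-- the spectral decomposition on the components -/
theorem dec_K (v z : X → ℝ) (h : ∀ᵐ x ∂κ, Dec κ (comp κ x) (v x) (z x)) :
    ∀ᵐ w ∂P, ∀ᵐ x ∂K w, Dec (K w) (comp (K w) x) (v x) (z x) := by
  have h' : ∀ᵐ x ∂P.bind K, Dec κ (comp κ x) (v x) (z x) := by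
    rw [← hκ]
    exact h
  filter_upwards [P_K P K κ hKm hκ hS hKS hT hset, comp_K P K κ hKm hκ hS hKS,
    ae_K P K hKm h'] with w hP h1 h2
  have hP' : ∀ᵐ x ∂K w, ∀ m : ℤ,
      Pool.Agent.H28.MG.P κ m =ᵐ[comp (K w) x] Pool.Agent.H28.MG.P (K w) m := by
    rw [ae_all_iff]
    exact fun m => ae_comp (K w) (hP m)
  filter_upwards [hP', h1, h2] with x hP h1 h2
  rw [← h1] at h2
  obtain ⟨b, θ, hb0, hb, e1, e2, e3⟩ := h2
  refine ⟨b, θ, hb0, hb, ?_, e2, fun n hn => ⟨?_, (e3 n hn).2⟩⟩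
  · rw [← e1]
    refine integral_congr_ae ?_
    filter_upwards [hP 0] with y hy
    rw [hy]
  · rw [← (e3 n hn).1]
    refine integral_congr_ae ?_
    filter_upwards [hP 0, hP n] with y hy hy'
    rw [hy, hy']

end

end Pool.Agent.H36.KW
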